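import Pool.Agent.H2.NL.Basic
import Pool.Agent.H97.QC.NW

/-!
# MP_fd35e1_ag: row EQT of nil_modules, traces of powers and characteristic polynomials
-/

set_option autoImplicit false

open Matrix Polynomial

namespace Pool.Agent.H18.NL

open Pool.Agent.H2.NL Pool.Agent.H97.QC

private theorem ec_eq {K : Type} [Field K] [CharZero K] {m n : ℕ} (A : Matrix (Fin m) (Fin m) K)
    (B : Matrix (Fin n) (Fin n) K) (h : ∀ k : ℕ, (A ^ (k + 1)).trace = (B ^ (k + 1)).trace)
    (k : ℕ) : ec A k = ec B k := by
  induction k using Nat.strong_induction_on with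
  | _ k ih =>
    rcases Nat.eq_zero_or_pos k with h0 | h0
    · rw [h0, ec_zero, ec_zero]
    · have hk : (k : K) ≠ 0 := Nat.cast_ne_zero.2 h0.ne'
      refine mul_left_cancel₀ hk ?_
      rw [newton, newton]
      congr 1
      refine Finset.sum_congr rfl fun p hp => ?_
      rw [Finset.HasAntidiagonal.mem_antidiagonal] at hp
      by_cases h2 : p.2 = 0
      · rw [if_pos h2, if_pos h2, mul_zero, mul_zero]
      · rw [if_neg h2, if_neg h2, ih p.1 (by omega)]
        obtain ⟨j, hj⟩ := Nat.exists_eq_succ_of_ne_zero h2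
        rw [hj]
        rw [show j.succ = j + 1 from rfl, h j]

private theorem coeff_val {K : Type} [Field K] [CharZero K] {m n : ℕ} (A : Matrix (Fin m) (Fin m) K)
    (d : ℕ) : (A.charpoly * X ^ n).coeff d =
      if d ≤ m + n then ec A (m + n - d) else 0 := by
  rw [coeff_mul_X_pow']
  by_cases h1 : n ≤ d
  · rw [if_pos h1]
    by_cases h2 : d ≤ m + n
    · rw [if_pos h2, charpoly_coeff A _ (by omega)]
      congr 1
      omega
    · rw [if_neg h2, charpoly_coeff_gt A _ (by omega)]
  · rw [if_neg h1, if_pos (by omega), ec_gt A _ (by omega)]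

private theorem fin_case {K : Type} [Field K] [CharZero K] {m n : ℕ} (A : Matrix (Fin m) (Fin m) K)
    (B : Matrix (Fin n) (Fin n) K) (h : ∀ k : ℕ, (A ^ (k + 1)).trace = (B ^ (k + 1)).trace) :
    A.charpoly * X ^ n = B.charpoly * X ^ m := by
  ext d
  rw [coeff_val, coeff_val, Nat.add_comm n m]
  split_ifs
  · exact ec_eq A B h _
  · rfl

private theorem trace_pow_reindex {K : Type} [Field K] {P : Type} [Fintype P] [DecidableEq P] {m : ℕ}
    (e : P ≃ Fin m) (A : Matrix P P K) (k : ℕ) :
    ((Matrix.reindex e e A) ^ k).trace = (A ^ k).trace := by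
  have h1 : (Matrix.reindex e e A) ^ k = Matrix.reindex e e (A ^ k) := by
    have h2 := map_pow (Matrix.reindexAlgEquiv K K e) A k
    rw [Matrix.coe_reindexAlgEquiv] at h2
    exact h2.symm
  rw [h1]
  unfold Matrix.trace
  rw [← Equiv.sum_comp e]
  refine Finset.sum_congr rfl fun i _ => ?_
  simp [Matrix.diag]

theorem pf_EQT : T_EQT := by
  intro K _ _ P Q _ _ _ _ A B h
  let e := Fintype.equivFin P
  let e' := Fintype.equivFin Q
  rw [← Matrix.charpoly_reindex e A, ← Matrix.charpoly_reindex e' B]
  refine fin_case _ _ fun k => ?_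
  rw [trace_pow_reindex, trace_pow_reindex]
  exact h k

end Pool.Agent.H18.NL
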