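import Pool.Agent.H2.NL.Basic

/-!
# MP_fd35e1_ag: row HZR of nil_modules, the invariance contracted with a symmetric tensor
-/

set_option autoImplicit false

open Matrix Pool.Agent.H2.NL

namespace Pool.Agent.H18.NL

private theorem Pr_congr {K : Type} [Field K] {I : Type} [Fintype I] [DecidableEq I]
    (F : Form K I) : ∀ (n : ℕ) (f f' g : List I → K), (∀ l : List I, l.length = n → f l = f' l) →
    Pr F n f g = Pr F n f' g := by
  intro n
  induction n with
  | zero =>
    intro f f' g h
    show f [] * g [] = f' [] * g []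
    rw [h [] rfl]
  | succ n ih =>
    intro f f' g h
    show ∑ a, F.c a * Pr F n (fun l => f (a :: l)) (fun l => g (F.st a :: l)) =
      ∑ a, F.c a * Pr F n (fun l => f' (a :: l)) (fun l => g (F.st a :: l))
    refine Finset.sum_congr rfl fun a _ => ?_
    rw [ih _ (fun l => f' (a :: l)) _ fun l hl => h (a :: l) (by simp [hl])]

private theorem Pr_add {K : Type} [Field K] {I : Type} [Fintype I] [DecidableEq I]
    (F : Form K I) : ∀ (n : ℕ) (f f' g : List I → K),
    Pr F n (fun l => f l + f' l) g = Pr F n f g + Pr F n f' g := by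
  intro n
  induction n with
  | zero =>
    intro f f' g
    show (f [] + f' []) * g [] = f [] * g [] + f' [] * g []
    ring
  | succ n ih =>
    intro f f' g
    show ∑ a, F.c a * Pr F n (fun l => f (a :: l) + f' (a :: l)) (fun l => g (F.st a :: l)) =
      ∑ a, F.c a * Pr F n (fun l => f (a :: l)) (fun l => g (F.st a :: l)) +
      ∑ a, F.c a * Pr F n (fun l => f' (a :: l)) (fun l => g (F.st a :: l))
    rw [← Finset.sum_add_distrib]
    refine Finset.sum_congr rfl fun a _ => ?_
    rw [ih (fun l => f (a :: l)) (fun l => f' (a :: l))]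
    ring

private theorem Pr_zero {K : Type} [Field K] {I : Type} [Fintype I] [DecidableEq I]
    (F : Form K I) : ∀ (n : ℕ) (g : List I → K), Pr F n (fun _ => 0) g = 0 := by
  intro n
  induction n with
  | zero =>
    intro g
    show 0 * g [] = 0
    ring
  | succ n ih =>
    intro g
    show ∑ a, F.c a * Pr F n (fun _ => 0) (fun l => g (F.st a :: l)) = 0
    refine Finset.sum_eq_zero fun a _ => ?_
    rw [ih, mul_zero]

private theorem Pr_smul {K : Type} [Field K] {I : Type} [Fintype I] [DecidableEq I]
    (F : Form K I) (s : K) : ∀ (n : ℕ) (f g : List I → K),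
    Pr F n (fun l => s * f l) g = s * Pr F n f g := by
  intro n
  induction n with
  | zero =>
    intro f g
    show s * f [] * g [] = s * (f [] * g [])
    ring
  | succ n ih =>
    intro f g
    show ∑ a, F.c a * Pr F n (fun l => s * f (a :: l)) (fun l => g (F.st a :: l)) =
      s * ∑ a, F.c a * Pr F n (fun l => f (a :: l)) (fun l => g (F.st a :: l))
    rw [Finset.mul_sum]
    refine Finset.sum_congr rfl fun a _ => ?_
    rw [ih (fun l => f (a :: l))]
    ring

private theorem Pr_sum {K : Type} [Field K] {I : Type} [Fintype I] [DecidableEq I]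
    (F : Form K I) {J : Type} (S : Finset J) (s : J → K) (n : ℕ) (f : J → List I → K)
    (g : List I → K) :
    Pr F n (fun l => ∑ b ∈ S, s b * f b l) g = ∑ b ∈ S, s b * Pr F n (f b) g := by
  classical
  induction S using Finset.induction_on with
  | empty =>
    simp only [Finset.sum_empty]
    exact Pr_zero F n g
  | insert b S hb ih =>
    simp only [Finset.sum_insert hb]
    rw [Pr_add F n (fun l => s b * f b l) (fun l => ∑ b ∈ S, s b * f b l), Pr_smul, ih]

theorem pf_HZR (hDER : T_DER) : T_HZR := by
  intro K _ _ V P _ _ _ _ F A hS k x y hk hx hsx hsy p q a d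
  obtain ⟨m, rfl⟩ : ∃ m, k = m + 1 := ⟨k - 1, by omega⟩
  obtain ⟨T, hT⟩ : ∃ T, T = F.T (Sum.inl p) (Sum.inl q) := ⟨_, rfl⟩
  rw [← hT]
  have hpar : ∀ a b, T a b ≠ 0 → F.o a = F.o b := by
    intro a b hab
    rw [hT] at hab
    unfold Form.T Form.η at hab
    simp only [Matrix.of_apply] at hab
    by_cases h1 : a = Sum.inl p
    · by_cases h2 : b = F.st (Sum.inl q)
      · rw [h1, h2, F.o_st, hS.o_V, hS.o_V]
      · by_cases h3 : a = Sum.inl q
        · by_cases h4 : b = F.st (Sum.inl p)
          · rw [h1, h4, F.o_st]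
          · exact absurd (by simp [h2, h4]) hab
        · exact absurd (by simp [h2, h3]) hab
    · by_cases h3 : a = Sum.inl q
      · by_cases h4 : b = F.st (Sum.inl p)
        · rw [h3, h4, F.o_st, hS.o_V, hS.o_V]
        · exact absurd (by simp [h1, h4]) hab
      · exact absurd (by simp [h1, h3]) hab
  have hf : Symm F.o (2 * m + 1) (fun l' => x (a :: l')) := by
    intro j hj w hw
    exact hsx (j + 1) (by omega) (a :: w) (by simp [hw]; omega)
  have hg : Symm F.o (2 * m + 1) (fun l' => y (d :: l')) := by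
    intro j hj w hw
    exact hsy (j + 1) (by omega) (d :: w) (by simp [hw]; omega)
  have h1 := hDER K (V ⊕ P) F T hpar (2 * m) _ _ hf hg
  have h2 : Pr F (2 * m + 1) (fun l => ∑ b, T a b * x (b :: l) +
      der T (fun l' => x (a :: l')) l) (fun l' => y (d :: l')) = 0 := by
    rw [Pr_congr F (2 * m + 1) _ (fun _ => 0) _ ?_, Pr_zero]
    intro l hl
    have h := hS.mono p q (m + 1) x hx (a :: l) (by simp [hl]; omega)
    rw [← hT] at h
    exact h
  rw [Pr_add F (2 * m + 1) (fun l => ∑ b, T a b * x (b :: l))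
    (fun l => der T (fun l' => x (a :: l')) l),
    Pr_sum F Finset.univ (fun b => T a b) (2 * m + 1) (fun b l => x (b :: l))] at h2
  have h3 : Pr F (2 * m + 1) (fun l => der T (fun l' => x (a :: l')) l) (fun l' => y (d :: l')) =
      ((2 * m : ℕ) + 1 : K) * ∑ e, ∑ b, F.c e * T e b *
        Pr F (2 * m) (fun l => x (a :: b :: l)) (fun l => y (d :: F.st e :: l)) := h1
  rw [h3] at h2
  have e1 : ∀ b, C1 F (2 * (m + 1)) x y b d =
      Pr F (2 * m + 1) (fun l => x (b :: l)) (fun l' => y (d :: l')) := by
    intro b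
    unfold C1
    rw [show 2 * (m + 1) - 1 = 2 * m + 1 by omega]
  have e2 : ∀ b e, C2 F (2 * (m + 1)) x y a b (F.st e) d =
      Pr F (2 * m) (fun l => x (a :: b :: l)) (fun l => y (d :: F.st e :: l)) := by
    intro b e
    unfold C2
    rw [show 2 * (m + 1) - 2 = 2 * m by omega]
  simp only [e1, e2]
  rw [← h2]
  congr 2
  push_cast
  ring

end Pool.Agent.H18.NL
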